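import Pool.Agent.Helper37.SY.Defs
import Pool.Agent.Helper59.Pack.Pack3

/-!
# SY, blocks L1 (lattices without points in the difference body) and L3 (shears)
-/

set_option autoImplicit false
namespace Pool.Agent.Helper1.SY
open MeasureTheory Metric
open Pool.Agent.Helper59.Pack Pool.Agent.Helper69.MD Pool.Agent.Helper37.SY
open scoped ENNReal Pointwise

/-- BLOCK L1 -/
theorem deltaL_ge_diff {K : Set E3} (hK : IsConvexBody K) (d : LatData)
    (h : ∀ u ∈ d.lat, u ≠ 0 → u ∉ interior (K - K)) :
    volume K / ENNReal.ofReal (d.H * det2 d.t₁ d.t₂) ≤ deltaL K := by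
  rw [deltaL_eq hK, ← d.covolume]
  have h : Conf K sU d.lat (fun _ => (0 : E3)) := by
    rintro ⟨⟩ ⟨⟩ u hu hne z h1 h2
    have hu0 : u ≠ 0 := by
      rcases hne with h | h
      · exact absurd rfl h
      · exact h
    have h1' : z ∈ interior K := by simpa [sU] using h1
    have h2' : z - u ∈ interior K := by simpa [sU] using h2
    refine h u hu hu0 ?_
    have h3 : interior K - interior K ⊆ interior (K - K) :=
      interior_maximal (Set.sub_subset_sub interior_subset interior_subset) isOpen_interior.sub_left
    refine h3 ⟨z, h1', z - u, h2', ?_⟩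
    change z - (z - u) = u
    abel
  have := le_dg d.lat h
  simpa using this

/-! ## Shears -/

/-- The inverse shear as a linear equivalence. -/
noncomputable def shiE (v : P2) : E3 ≃ₗ[ℝ] E3 where
  toFun := shi v
  map_add' x y := by
    unfold shi
    apply E3_ext
    · simp only [mk3_zero, PiLp.add_apply, Pi.add_apply, Pi.smul_apply, smul_eq_mul, pr_zero]
      ring
    · simp only [mk3_one, PiLp.add_apply, Pi.add_apply, Pi.smul_apply, smul_eq_mul, pr_one]
      ring
    · simp only [mk3_two, PiLp.add_apply]
  map_smul' c x := by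
    unfold shi
    apply E3_ext
    · simp only [mk3_zero, PiLp.smul_apply, Pi.add_apply, Pi.smul_apply, smul_eq_mul, pr_zero,
        RingHom.id_apply]
      ring
    · simp only [mk3_one, PiLp.smul_apply, Pi.add_apply, Pi.smul_apply, smul_eq_mul, pr_one,
        RingHom.id_apply]
      ring
    · simp only [mk3_two, PiLp.smul_apply, smul_eq_mul, RingHom.id_apply]
  invFun := shm v
  left_inv x := by
    unfold shi shm
    apply E3_ext
    · simp only [mk3_zero, mk3_two, pr_mk3, Pi.add_apply, Pi.sub_apply, Pi.smul_apply, smul_eq_mul,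
        pr_zero]
      ring
    · simp only [mk3_one, mk3_two, pr_mk3, Pi.add_apply, Pi.sub_apply, Pi.smul_apply, smul_eq_mul,
        pr_one]
      ring
    · simp only [mk3_two]
  right_inv x := by
    unfold shi shm
    apply E3_ext
    · simp only [mk3_zero, mk3_two, pr_mk3, Pi.add_apply, Pi.sub_apply, Pi.smul_apply, smul_eq_mul,
        pr_zero]
      ring
    · simp only [mk3_one, mk3_two, pr_mk3, Pi.add_apply, Pi.sub_apply, Pi.smul_apply, smul_eq_mul,
        pr_one]
      ring
    · simp only [mk3_two]

theorem shiE_apply (v : P2) (x : E3) : shiE v x = shi v x := rfl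

theorem det_shiE (v : P2) : LinearMap.det (shiE v : E3 →ₗ[ℝ] E3) = 1 := by
  rw [← LinearMap.det_toMatrix (EuclideanSpace.basisFun (Fin 3) ℝ).toBasis, Matrix.det_fin_three]
  simp only [LinearMap.toMatrix_apply, OrthonormalBasis.coe_toBasis_repr_apply,
    OrthonormalBasis.coe_toBasis, EuclideanSpace.basisFun_repr, EuclideanSpace.basisFun_apply,
    LinearEquiv.coe_coe, shiE_apply, shi, mk3_zero, mk3_one, mk3_two, Pi.add_apply, Pi.smul_apply,
    smul_eq_mul, pr_zero, pr_one]
  simp

/-- The inverse shear as a continuous linear equivalence. -/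
noncomputable def shiC (v : P2) : E3 ≃L[ℝ] E3 := (shiE v).toContinuousLinearEquiv

theorem shiC_apply (v : P2) (x : E3) : shiC v x = shi v x := rfl

theorem sh_eq (v : P2) (C : Set E3) : sh v C = shiC v ⁻¹' C := rfl

theorem mp_shiC (v : P2) : MeasurePreserving (shiC v) (volume : Measure E3) volume := by
  refine ⟨(shiC v).continuous.measurable, ?_⟩
  have hd := det_shiE v
  have h := Measure.map_linearMap_addHaar_eq_smul_addHaar (volume : Measure E3)
    (f := (shiE v : E3 →ₗ[ℝ] E3)) (by rw [hd]; exact one_ne_zero)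
  rw [hd] at h
  have h2 : Measure.map (shiC v) (volume : Measure E3) = ENNReal.ofReal |(1 : ℝ)⁻¹| • volume := h
  rw [h2]
  simp

theorem volume_sh (v : P2) (C : Set E3) : volume (sh v C) = volume C := by
  rw [sh_eq]
  exact (mp_shiC v).measure_preimage_emb (shiC v).toHomeomorph.measurableEmbedding C

theorem interior_sh (v : P2) (C : Set E3) : interior (sh v C) = shiC v ⁻¹' interior C := by
  rw [sh_eq]
  exact ((shiC v).toHomeomorph.preimage_interior C).symm

theorem body_sh {C : Set E3} (hC : IsConvexBody C) (v : P2) : IsConvexBody (sh v C) := by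
  refine ⟨?_, ?_, ?_⟩
  · rw [sh_eq]
    exact hC.convex.linear_preimage (shiE v : E3 →ₗ[ℝ] E3)
  · rw [sh_eq]
    exact (shiC v).toHomeomorph.isCompact_preimage.2 hC.isCompact
  · rw [interior_sh]
    obtain ⟨x, hx⟩ := hC.interior_nonempty
    refine ⟨(shiC v).symm x, ?_⟩
    rw [Set.mem_preimage, ContinuousLinearEquiv.apply_symm_apply]
    exact hx

/-- BLOCK L3 (shears) -/
theorem deltaL_sh {K : Set E3} (hK : IsConvexBody K) (v : P2) : deltaL (sh v K) ≤ deltaL K := by
  rw [deltaL_eq (body_sh hK v), deltaL_eq hK]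
  conv_lhs => unfold dg
  refine iSup_le fun Λ => iSup_le fun h1 => iSup_le fun h2 => iSup_le fun w => iSup_le fun h => ?_
  have hmp : MeasurePreserving (shiC v).symm (volume : Measure E3) volume := by
    have h3 := (mp_shiC v).symm (shiC v).toHomeomorph.toMeasurableEquiv
    exact h3
  have hcov : ZLattice.covolume (ZLattice.comap ℝ Λ (shiC v).symm.toLinearMap) =
      ZLattice.covolume Λ := ZLattice.covolume_comap Λ volume volume hmp
  rw [volume_sh, ← hcov]
  refine le_dg (s := sU) (ZLattice.comap ℝ Λ (shiC v).symm.toLinearMap)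
    (v := fun i => shiC v (w i)) ?_
  intro i j u hu hne z h3 h4
  have hu' : (shiC v).symm u ∈ Λ := hu
  refine h i j ((shiC v).symm u) hu' ?_ ((shiC v).symm z) ?_ ?_
  · rcases hne with h5 | h5
    · exact Or.inl h5
    · exact Or.inr fun h6 => h5 (by simpa using h6)
  · rw [interior_sh, Set.mem_preimage, map_smul, map_sub, ContinuousLinearEquiv.apply_symm_apply]
    exact h3
  · rw [interior_sh, Set.mem_preimage, map_smul, map_sub, map_add,
      ContinuousLinearEquiv.apply_symm_apply, ContinuousLinearEquiv.apply_symm_apply]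
    exact h4

end Pool.Agent.Helper1.SY
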